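import Mathlib

set_option autoImplicit false

/-! # The DP colour function bound for `G □ K_{k,t}` is never sharp for `k ≥ 2` -/

namespace Pool.Agent.Results.MP_924496_co.NeverSharp

open Finset SimpleGraph

/-- a cover `(L, H)` of the graph `G`; the partition `L` of the vertex set `W` of `H` is given by
the map `π`, with `L(v) = π ⁻¹ {v}` -/
structure Cover {V : Type} (G : SimpleGraph V) where
  W : Type
  H : SimpleGraph W
  π : W → V
  clique : ∀ x y, π x = π y → x ≠ y → H.Adj x y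
  matching : ∀ x y z, π x ≠ π y → π y = π z → H.Adj x y → H.Adj x z → y = z
  adj : ∀ x y, H.Adj x y → π x = π y ∨ G.Adj (π x) (π y)

/-- the cover is `m`-fold -/
def Cover.IsFold {V : Type} {G : SimpleGraph V} (K : Cover G) (m : ℕ) : Prop :=
  ∀ v, {x | K.π x = v}.encard = m

/-- `I` is a colouring: an independent set of size `|V(G)|` -/
def Cover.IsColoring {V : Type} [Fintype V] {G : SimpleGraph V} (K : Cover G) (I : Finset K.W) :
    Prop :=
  (∀ x ∈ I, ∀ y ∈ I, ¬ K.H.Adj x y) ∧ I.card = Fintype.card V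

/-- the DP-chromatic number -/
noncomputable def chiDP {V : Type} [Fintype V] (G : SimpleGraph V) : ℕ :=
  sInf {m | ∀ K : Cover G, K.IsFold m → ∃ I, K.IsColoring I}

/-- the DP colour function -/
noncomputable def PDP {V : Type} [Fintype V] (G : SimpleGraph V) (m : ℕ) : ℕ :=
  sInf {n | ∃ K : Cover G, K.IsFold m ∧ n = Nat.card {I : Finset K.W // K.IsColoring I}}

/-- the function `f(G, k)`: the least `t` with `χ_DP(G □ K_{k,t}) = χ_DP(G) + k` -/
noncomputable def fDP {V : Type} [Fintype V] (G : SimpleGraph V) (k : ℕ) : ℕ :=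
  sInf {t : ℕ | chiDP (G □ completeBipartiteGraph (Fin k) (Fin t)) = chiDP G + k}

/-! ### Covers as families of matchings -/

/-- a cover with all lists equal to `C` -/
structure Rel {V : Type} (G : SimpleGraph V) (C : Type) where
  M : V → V → C → C → Prop
  symm : ∀ u v a b, M u v a b → M v u b a
  inj : ∀ u v a b c, G.Adj u v → M u v a b → M u v a c → b = c

/-- colourings -/
def Rel.Col {V C : Type} {G : SimpleGraph V} (R : Rel G C) (φ : V → C) : Prop :=
  ∀ u v, G.Adj u v → ¬ R.M u v (φ u) (φ v)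

/-- transversals -/
def Cover.Trans {V : Type} {G : SimpleGraph V} (K : Cover G) (s : V → K.W) : Prop :=
  (∀ v, K.π (s v) = v) ∧ ∀ u v, ¬ K.H.Adj (s u) (s v)

theorem Cover.exists_equiv {V : Type} [Fintype V] {G : SimpleGraph V} (K : Cover G) :
    Nonempty ({s : V → K.W // K.Trans s} ≃ {I : Finset K.W // K.IsColoring I}) := by
  classical
  have hinj : ∀ s : V → K.W, K.Trans s → Function.Injective s := by
    intro s hs u v huv
    have := congrArg K.π huv
    rwa [hs.1, hs.1] at this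
  let F : {s : V → K.W // K.Trans s} → {I : Finset K.W // K.IsColoring I} := fun s =>
    ⟨univ.image s.1, by
      refine ⟨?_, ?_⟩
      · intro x hx y hy
        obtain ⟨u, -, rfl⟩ := mem_image.1 hx
        obtain ⟨v, -, rfl⟩ := mem_image.1 hy
        exact s.2.2 u v
      · rw [card_image_of_injective _ (hinj s.1 s.2), card_univ]⟩
  refine ⟨Equiv.ofBijective F ⟨?_, ?_⟩⟩
  · rintro ⟨s, hs⟩ ⟨s', hs'⟩ h
    apply Subtype.ext
    funext v
    have h1 : univ.image s = univ.image s' := congrArg Subtype.val h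
    have h2 : s v ∈ univ.image s' := h1 ▸ mem_image_of_mem s (mem_univ v)
    obtain ⟨u, -, hu⟩ := mem_image.1 h2
    have h3 := congrArg K.π hu
    rw [hs'.1, hs.1] at h3
    show s v = s' v
    rw [← hu, h3]
  · rintro ⟨I, hI, hcard⟩
    have h1 : Set.InjOn K.π (I : Set K.W) := by
      intro x hx y hy hxy
      by_contra hne
      exact hI x hx y hy (K.clique x y hxy hne)
    have h2 : I.image K.π = univ := by
      apply Finset.eq_univ_of_card
      rw [card_image_of_injOn h1, hcard]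
    have h3 : ∀ v, ∃ x ∈ I, K.π x = v := by
      intro v
      have : v ∈ I.image K.π := by rw [h2]; exact mem_univ v
      simpa using this
    choose s hs1 hs2 using h3
    have hs : K.Trans s := ⟨hs2, fun u v => hI _ (hs1 u) _ (hs1 v)⟩
    refine ⟨⟨s, hs⟩, ?_⟩
    apply Subtype.ext
    show univ.image s = I
    apply Finset.eq_of_subset_of_card_le
    · intro x hx
      obtain ⟨u, -, rfl⟩ := mem_image.1 hx
      exact hs1 u
    · rw [hcard, card_image_of_injective _ (hinj s hs), card_univ]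

/-- the cover with vertex set `V × C` -/
def Rel.toCover {V C : Type} {G : SimpleGraph V} (R : Rel G C) : Cover G where
  W := V × C
  H :=
    { Adj := fun x y => (x.1 = y.1 ∧ x.2 ≠ y.2) ∨ (G.Adj x.1 y.1 ∧ R.M x.1 y.1 x.2 y.2)
      symm := ⟨by
        rintro x y (⟨h1, h2⟩ | ⟨h1, h2⟩)
        · exact Or.inl ⟨h1.symm, h2.symm⟩
        · exact Or.inr ⟨h1.symm, R.symm _ _ _ _ h2⟩⟩
      loopless := ⟨by
        rintro x (⟨-, h⟩ | ⟨h, -⟩)
        · exact h rfl
        · exact G.loopless.irrefl _ h⟩ }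
  π := Prod.fst
  clique := fun x y h1 h2 => Or.inl ⟨h1, fun h => h2 (Prod.ext h1 h)⟩
  matching := by
    rintro x y z hxy hyz (⟨h1, -⟩ | ⟨h1, h2⟩) h'
    · exact absurd h1 hxy
    rcases h' with ⟨h3, -⟩ | ⟨-, h4⟩
    · exact absurd (h3.trans hyz.symm) hxy
    · obtain ⟨y1, y2⟩ := y
      obtain ⟨z1, z2⟩ := z
      simp only at hyz h1 h2 h4
      subst hyz
      exact Prod.ext rfl (R.inj _ _ _ _ _ h1 h2 h4)
  adj := fun x y h => h.imp And.left And.left

theorem Rel.toCover_isFold {V C : Type} [Fintype C] {G : SimpleGraph V} (R : Rel G C) :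
    R.toCover.IsFold (Fintype.card C) := by
  classical
  intro v
  show {x : V × C | x.1 = v}.encard = _
  have : {x : V × C | x.1 = v} = (fun c : C => ((v, c) : V × C)) '' Set.univ := by
    ext ⟨u, c⟩
    simp only [Set.mem_ofPred_eq, Set.mem_image, Set.mem_univ, true_and, Prod.mk.injEq]
    constructor
    · intro h
      exact ⟨c, Eq.symm h, rfl⟩
    · rintro ⟨c', h, -⟩
      exact Eq.symm h
  rw [this, Function.Injective.encard_image]
  · rw [Set.encard_univ, ENat.card_eq_coe_fintype_card]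
  · intro a b h
    exact (Prod.ext_iff.1 h).2

theorem Rel.toCover_equiv {V C : Type} {G : SimpleGraph V} (R : Rel G C) :
    Nonempty ({φ : V → C // R.Col φ} ≃ {s : V → R.toCover.W // R.toCover.Trans s}) := by
  refine ⟨⟨fun φ => ⟨fun v => (v, φ.1 v), fun v => rfl, ?_⟩,
    fun s => ⟨fun v => (s.1 v).2, ?_⟩, ?_, ?_⟩⟩
  · rintro u v (⟨h1, h2⟩ | ⟨h1, h2⟩)
    · simp only at h1 h2
      exact h2 (by rw [h1])
    · exact φ.2 u v h1 h2
  · intro u v huv hM
    have hu : (s.1 u).1 = u := s.2.1 u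
    have hv : (s.1 v).1 = v := s.2.1 v
    refine s.2.2 u v (Or.inr ⟨?_, ?_⟩)
    · rw [hu, hv]; exact huv
    · rw [hu, hv]; exact hM
  · intro φ
    rfl
  · rintro ⟨s, hs⟩
    apply Subtype.ext
    funext v
    exact Prod.ext (hs.1 v).symm rfl

theorem Rel.card_eq {V C : Type} [Fintype V] {G : SimpleGraph V} (R : Rel G C) :
    Nat.card {I : Finset R.toCover.W // R.toCover.IsColoring I} = Nat.card {φ // R.Col φ} := by
  obtain ⟨e⟩ := R.toCover_equiv
  obtain ⟨e'⟩ := R.toCover.exists_equiv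
  exact (Nat.card_congr (e.trans e')).symm

theorem Cover.exists_rel {V : Type} [Fintype V] {G : SimpleGraph V} (K : Cover G) (m : ℕ)
    (hK : K.IsFold m) : ∃ R : Rel G (Fin m),
      Nonempty ({φ : V → Fin m // R.Col φ} ≃ {I : Finset K.W // K.IsColoring I}) := by
  classical
  have he : ∀ v, ∃ e : Fin m ≃ {x // K.π x = v}, True := by
    intro v
    have h1 : {x | K.π x = v}.Finite := Set.finite_of_encard_eq_coe (hK v)
    have h2 : Finite {x // K.π x = v} := h1.to_subtype
    have h3 : Nat.card {x // K.π x = v} = m := by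
      have : Nat.card ({x | K.π x = v} : Set K.W) = m := by
        rw [Nat.card_coe_set_eq, Set.ncard, hK v]
        simp
      exact this
    exact ⟨(Finite.equivFinOfCardEq h3).symm, trivial⟩
  choose e _ using he
  let R : Rel G (Fin m) :=
    { M := fun u v a b => K.H.Adj (e u a) (e v b)
      symm := fun u v a b h => h.symm
      inj := by
        intro u v a b c huv h1 h2
        have h3 := K.matching (e u a) (e v b) (e v c)
          (by rw [(e u a).2, (e v b).2]; exact huv.ne) (by rw [(e v b).2, (e v c).2]) h1 h2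
        exact (e v).injective (Subtype.ext h3) }
  obtain ⟨e'⟩ := K.exists_equiv
  let e1 : {φ : V → Fin m // R.Col φ} ≃ {s : V → K.W // K.Trans s} :=
    { toFun := fun φ => ⟨fun v => (e v (φ.1 v)).1, fun v => (e v (φ.1 v)).2, by
        intro u v hadj
        rcases K.adj _ _ hadj with h | h
        · rw [(e u (φ.1 u)).2, (e v (φ.1 v)).2] at h
          subst h
          exact K.H.loopless.irrefl _ hadj
        · rw [(e u (φ.1 u)).2, (e v (φ.1 v)).2] at h
          exact φ.2 u v h hadj⟩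
      invFun := fun s => ⟨fun v => (e v).symm ⟨s.1 v, s.2.1 v⟩, by
        intro u v _ hM
        have : K.H.Adj (s.1 u) (s.1 v) := by simpa [R] using hM
        exact s.2.2 u v this⟩
      left_inv := by
        intro φ
        apply Subtype.ext
        funext v
        simp
      right_inv := by
        intro s
        apply Subtype.ext
        funext v
        simp }
  exact ⟨R, ⟨e1.trans e'⟩⟩

/-! ### The DP-chromatic number in terms of families of matchings -/

/-- every family of matchings with lists of size `m` has a colouring -/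
def Good {V : Type} (G : SimpleGraph V) (m : ℕ) : Prop :=
  ∀ R : Rel G (Fin m), ∃ φ, R.Col φ

theorem good_iff {V : Type} [Fintype V] (G : SimpleGraph V) (m : ℕ) :
    (∀ K : Cover G, K.IsFold m → ∃ I, K.IsColoring I) ↔ Good G m := by
  constructor
  · intro h R
    obtain ⟨I, hI⟩ := h R.toCover (by simpa using R.toCover_isFold)
    obtain ⟨e⟩ := R.toCover_equiv
    obtain ⟨e'⟩ := R.toCover.exists_equiv
    exact ⟨_, (e.symm (e'.symm ⟨I, hI⟩)).2⟩
  · intro h K hK
    obtain ⟨R, ⟨e⟩⟩ := K.exists_rel m hK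
    obtain ⟨φ, hφ⟩ := h R
    exact ⟨_, (e ⟨φ, hφ⟩).2⟩

/-- transport of colours -/
def Rel.map {V C C' : Type} {G : SimpleGraph V} (R : Rel G C) (ι : V → C' ↪ C) : Rel G C' where
  M u v a b := R.M u v (ι u a) (ι v b)
  symm _ _ _ _ h := R.symm _ _ _ _ h
  inj _ v _ _ _ huv h1 h2 := (ι v).injective (R.inj _ _ _ _ _ huv h1 h2)

/-- choosing from sublists of size at least `m` -/
theorem Good.exists_sub {V : Type} {G : SimpleGraph V} {m : ℕ} (h : Good G m) {C : Type}
    (R : Rel G C) (S : V → Finset C) (hS : ∀ v, m ≤ (S v).card) :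
    ∃ φ, R.Col φ ∧ ∀ v, φ v ∈ S v := by
  classical
  have : ∀ v, ∃ ι : Fin m ↪ C, ∀ i, ι i ∈ S v := by
    intro v
    obtain ⟨T, hT, hTm⟩ := exists_subset_card_eq (hS v)
    let e := (T.equivFinOfCardEq hTm).symm
    exact ⟨⟨fun i => (e i).1, fun a b hab => e.injective (Subtype.ext hab)⟩,
      fun i => hT (e i).2⟩
  choose ι hι using this
  obtain ⟨φ, hφ⟩ := h (R.map ι)
  exact ⟨fun v => ι v (φ v), fun u v huv => hφ u v huv, fun v => hι v _⟩

theorem Good.exists_col {V : Type} {G : SimpleGraph V} {m : ℕ} (h : Good G m) {C : Type}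
    [Fintype C] (hC : m ≤ Fintype.card C) (R : Rel G C) : ∃ φ, R.Col φ := by
  obtain ⟨φ, hφ, -⟩ := h.exists_sub R (fun _ => univ) (fun _ => by simpa using hC)
  exact ⟨φ, hφ⟩

theorem Good.mono {V : Type} {G : SimpleGraph V} {m n : ℕ} (h : Good G m) (hmn : m ≤ n) :
    Good G n := fun R => h.exists_col (by simpa using hmn) R

theorem good_card {V : Type} [Fintype V] (G : SimpleGraph V) : Good G (Fintype.card V) := by
  classical
  intro R
  have key : ∀ S : Finset V, ∃ φ : V → Fin (Fintype.card V),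
      ∀ u ∈ S, ∀ v ∈ S, G.Adj u v → ¬ R.M u v (φ u) (φ v) := by
    intro S
    induction S using Finset.induction_on with
    | empty =>
      rcases isEmpty_or_nonempty V with hV | ⟨⟨v⟩⟩
      · exact ⟨fun v => (hV.false v).elim, fun v => (hV.false v).elim⟩
      · exact ⟨fun _ => ⟨0, Fintype.card_pos_iff.2 ⟨v⟩⟩, fun u hu => absurd hu (by simp)⟩
    | insert w S hw ih =>
      obtain ⟨φ, hφ⟩ := ih
      -- the forbidden colours at `w`
      have h1 : (univ.filter (fun b => ∃ u ∈ S, G.Adj u w ∧ R.M u w (φ u) b)).card ≤ S.card := by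
        refine (card_le_card (t := S.biUnion
          (fun u => univ.filter (fun b => G.Adj u w ∧ R.M u w (φ u) b))) ?_).trans ?_
        · intro b hb
          simp only [mem_filter, mem_univ, true_and] at hb
          obtain ⟨u, hu, h⟩ := hb
          simp only [mem_biUnion, mem_filter, mem_univ, true_and]
          exact ⟨u, hu, h⟩
        · refine (card_biUnion_le_card_mul _ _ 1 ?_).trans (by simp)
          intro u _
          rw [card_le_one]
          intro a ha b hb
          simp only [mem_filter, mem_univ, true_and] at ha hb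
          exact R.inj _ _ _ _ _ ha.1 ha.2 hb.2
      have h2 : S.card < Fintype.card V := by
        rw [← card_univ]
        exact card_lt_card ⟨subset_univ _, fun h => hw (h (mem_univ w))⟩
      obtain ⟨b, hb⟩ : ∃ b, b ∉ univ.filter (fun b => ∃ u ∈ S, G.Adj u w ∧ R.M u w (φ u) b) := by
        by_contra hcon
        push Not at hcon
        have h3 : univ.filter (fun b => ∃ u ∈ S, G.Adj u w ∧ R.M u w (φ u) b) = univ :=
          eq_univ_of_forall hcon
        rw [h3, card_univ, Fintype.card_fin] at h1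
        omega
      simp only [mem_filter, mem_univ, true_and, not_exists, not_and] at hb
      refine ⟨Function.update φ w b, ?_⟩
      intro u hu v hv huv
      by_cases hu' : u = w <;> by_cases hv' : v = w
      · subst hu'; subst hv'; exact absurd huv (G.loopless.irrefl _)
      · subst hu'
        rw [Function.update_self, Function.update_of_ne hv']
        intro hM
        exact hb v (mem_of_mem_insert_of_ne hv hv') huv.symm (R.symm _ _ _ _ hM)
      · subst hv'
        rw [Function.update_self, Function.update_of_ne hu']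
        exact hb u (mem_of_mem_insert_of_ne hu hu') huv
      · rw [Function.update_of_ne hu', Function.update_of_ne hv']
        exact hφ u (mem_of_mem_insert_of_ne hu hu') v (mem_of_mem_insert_of_ne hv hv') huv
  obtain ⟨φ, hφ⟩ := key univ
  exact ⟨φ, fun u v huv => hφ u (mem_univ _) v (mem_univ _) huv⟩

theorem chiDP_eq {V : Type} [Fintype V] (G : SimpleGraph V) : chiDP G = sInf {m | Good G m} := by
  unfold chiDP
  congr 1
  ext m
  exact good_iff G m

theorem good_chiDP {V : Type} [Fintype V] (G : SimpleGraph V) : Good G (chiDP G) := by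
  rw [chiDP_eq]
  exact Nat.sInf_mem (s := {m | Good G m}) ⟨_, good_card G⟩

theorem not_good {V : Type} [Fintype V] (G : SimpleGraph V) {m : ℕ} (hm : m < chiDP G) :
    ¬ Good G m := by
  intro h
  rw [chiDP_eq] at hm
  exact absurd (Nat.sInf_le (s := {m | Good G m}) h) (by omega)

theorem chiDP_eq_of {V : Type} [Fintype V] (G : SimpleGraph V) (m : ℕ) (h1 : Good G m)
    (h2 : ∀ n, n + 1 = m → ¬ Good G n) : chiDP G = m := by
  apply le_antisymm
  · rw [chiDP_eq]
    exact Nat.sInf_le (s := {m | Good G m}) h1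
  · by_contra hlt
    push Not at hlt
    obtain ⟨n, hn⟩ : ∃ n, n + 1 = m := ⟨m - 1, by omega⟩
    exact h2 n hn ((good_chiDP G).mono (by omega))

theorem chiDP_pos {V : Type} [Fintype V] [Nonempty V] (G : SimpleGraph V) : 1 ≤ chiDP G := by
  by_contra h
  have h0 : chiDP G = 0 := by omega
  have h1 := good_chiDP G
  rw [h0] at h1
  obtain ⟨φ, -⟩ := h1 ⟨fun _ _ _ _ => False, fun _ _ _ _ h => h, fun _ _ _ _ _ _ h => h.elim⟩
  exact (φ (Classical.arbitrary V)).elim0

/-- the minimum in the definition of the DP colour function, in terms of families of matchings -/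
theorem exists_PDP {V : Type} [Fintype V] (G : SimpleGraph V) (m : ℕ) :
    ∃ R : Rel G (Fin m), Nat.card {φ // R.Col φ} = PDP G m := by
  have hne : {n | ∃ K : Cover G, K.IsFold m ∧
      n = Nat.card {I : Finset K.W // K.IsColoring I}}.Nonempty := by
    let R : Rel G (Fin m) :=
      ⟨fun _ _ _ _ => False, fun _ _ _ _ h => h, fun _ _ _ _ _ _ h => h.elim⟩
    exact ⟨_, R.toCover, by simpa using R.toCover_isFold, rfl⟩
  obtain ⟨K, hK, hn⟩ := Nat.sInf_mem hne
  obtain ⟨R, ⟨e⟩⟩ := K.exists_rel m hK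
  exact ⟨R, (Nat.card_congr e).trans hn.symm⟩

/-! ### The upper bound `χ_DP(G □ K_{k,t}) ≤ χ_DP(G) + k` -/

theorem good_prod {V : Type} [Fintype V] (G : SimpleGraph V) (k t : ℕ) :
    Good (G □ completeBipartiteGraph (Fin k) (Fin t)) (chiDP G + k) := by
  classical
  intro R
  -- the left copies
  have hleft : ∀ i : Fin k, ∃ φ : V → Fin (chiDP G + k), ∀ u v, G.Adj u v →
      ¬ R.M (u, Sum.inl i) (v, Sum.inl i) (φ u) (φ v) := by
    intro i
    let Ri : Rel G (Fin (chiDP G + k)) :=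
      { M := fun u v a b => R.M (u, Sum.inl i) (v, Sum.inl i) a b
        symm := fun u v a b h => R.symm _ _ _ _ h
        inj := fun u v a b c huv h1 h2 => R.inj _ _ _ _ _
          (by rw [boxProd_adj]; exact Or.inl ⟨huv, rfl⟩) h1 h2 }
    exact (good_chiDP G).exists_col (by simp) Ri
  choose φ hφ using hleft
  have hright : ∀ j : Fin t, ∃ ψ : V → Fin (chiDP G + k), (∀ u v, G.Adj u v →
      ¬ R.M (u, Sum.inr j) (v, Sum.inr j) (ψ u) (ψ v)) ∧
      ∀ v i, ¬ R.M (v, Sum.inl i) (v, Sum.inr j) (φ i v) (ψ v) := by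
    intro j
    let Rj : Rel G (Fin (chiDP G + k)) :=
      { M := fun u v a b => R.M (u, Sum.inr j) (v, Sum.inr j) a b
        symm := fun u v a b h => R.symm _ _ _ _ h
        inj := fun u v a b c huv h1 h2 => R.inj _ _ _ _ _
          (by rw [boxProd_adj]; exact Or.inl ⟨huv, rfl⟩) h1 h2 }
    let S : V → Finset (Fin (chiDP G + k)) := fun v =>
      univ.filter (fun b => ∀ i, ¬ R.M (v, Sum.inl i) (v, Sum.inr j) (φ i v) b)
    have hS : ∀ v, chiDP G ≤ (S v).card := by
      intro v
      have h1 : (univ.filter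
          (fun b => ¬ ∀ i, ¬ R.M (v, Sum.inl i) (v, Sum.inr j) (φ i v) b)).card ≤ k := by
        refine (card_le_card (t := (univ : Finset (Fin k)).biUnion
          (fun i => univ.filter (fun b => R.M (v, Sum.inl i) (v, Sum.inr j) (φ i v) b)))
          ?_).trans ?_
        · intro b hb
          simp only [mem_filter, mem_univ, true_and, not_forall, not_not] at hb
          obtain ⟨i, h⟩ := hb
          simp only [mem_biUnion, mem_filter, mem_univ, true_and]
          exact ⟨i, h⟩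
        · refine (card_biUnion_le_card_mul _ _ 1 ?_).trans (by simp)
          intro i _
          rw [card_le_one]
          intro a ha b hb
          simp only [mem_filter, mem_univ, true_and] at ha hb
          refine R.inj _ _ _ _ _ ?_ ha hb
          rw [boxProd_adj]
          exact Or.inr ⟨by simp, rfl⟩
      have h2 := card_filter_add_card_filter_not (s := (univ : Finset (Fin (chiDP G + k))))
        (fun b => ∀ i, ¬ R.M (v, Sum.inl i) (v, Sum.inr j) (φ i v) b)
      rw [card_univ, Fintype.card_fin] at h2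
      show chiDP G ≤ (univ.filter
        (fun b => ∀ i, ¬ R.M (v, Sum.inl i) (v, Sum.inr j) (φ i v) b)).card
      omega
    obtain ⟨ψ, hψ1, hψ2⟩ := (good_chiDP G).exists_sub Rj S hS
    refine ⟨ψ, hψ1, fun v i => ?_⟩
    have := hψ2 v
    simp only [S, mem_filter, mem_univ, true_and] at this
    exact this i
  choose ψ hψ1 hψ2 using hright
  refine ⟨fun x => match x.2 with
    | Sum.inl i => φ i x.1
    | Sum.inr j => ψ j x.1, ?_⟩
  rintro ⟨u, x⟩ ⟨v, y⟩ h
  rw [boxProd_adj] at h
  rcases h with ⟨huv, hxy⟩ | ⟨hxy, huv⟩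
  · simp only at huv hxy
    subst hxy
    rcases x with i | j
    · exact hφ i u v huv
    · exact hψ1 j u v huv
  · simp only at huv hxy
    subst huv
    rcases x with i | j <;> rcases y with i' | j'
    · simp at hxy
    · exact hψ2 j' u i
    · intro hM
      exact hψ2 j u i' (R.symm _ _ _ _ hM)
    · simp at hxy

/-! ### The lower bound -/

/-- the set of indices of the right copies -/
abbrev Idx {V C : Type} {G : SimpleGraph V} (k : ℕ) (R : Rel G C) (B : {φ // R.Col φ}) : Type :=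
  {γ : Fin (k + 2) → {φ // R.Col φ} // ¬ (γ 0 = B ∧ γ 1 = B)}

/-- the matching between the `i`-th left copy and the right copy `γ` at the vertex `v` -/
def T {V D : Type} {G : SimpleGraph V} {k : ℕ} {R : Rel G (Fin (k + 2) ⊕ D)}
    (A B : {φ // R.Col φ}) (γ : Fin (k + 2) → {φ // R.Col φ}) (i : Fin (k + 2)) (v : V)
    (a b : Fin (k + 2) ⊕ D) : Prop :=
  (a = (γ i).1 v ∧ b = Sum.inl i) ∨ (γ 0 = A ∧ γ 1 = A ∧ a = B.1 v ∧
    ((i = 0 ∧ b = Sum.inl 1) ∨ (i = 1 ∧ b = Sum.inl 0)))

theorem T_right {V D : Type} {G : SimpleGraph V} {k : ℕ} {R : Rel G (Fin (k + 2) ⊕ D)}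
    {A B : {φ // R.Col φ}} (hAB : ∀ v, A.1 v ≠ B.1 v) {γ : Fin (k + 2) → {φ // R.Col φ}}
    {i : Fin (k + 2)} {v : V} {a b c : Fin (k + 2) ⊕ D} (h1 : T A B γ i v a b)
    (h2 : T A B γ i v a c) : b = c := by
  have h01 : (0 : Fin (k + 2)) ≠ 1 := zero_ne_one
  rcases h1 with ⟨ha, hb⟩ | ⟨h0, h1, ha, hb⟩ <;> rcases h2 with ⟨ha', hc⟩ | ⟨h0', h1', ha', hc⟩
  · rw [hb, hc]
  · exfalso
    rcases hc with ⟨hi, -⟩ | ⟨hi, -⟩ <;> subst hi
    · rw [h0', ha'] at ha; exact hAB v ha.symm
    · rw [h1', ha'] at ha; exact hAB v ha.symm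
  · exfalso
    rcases hb with ⟨hi, -⟩ | ⟨hi, -⟩ <;> subst hi
    · rw [h0, ha] at ha'; exact hAB v ha'.symm
    · rw [h1, ha] at ha'; exact hAB v ha'.symm
  · rcases hb with ⟨hi, hb⟩ | ⟨hi, hb⟩ <;> rcases hc with ⟨hi', hc⟩ | ⟨hi', hc⟩
    · rw [hb, hc]
    · exact absurd (hi.symm.trans hi') h01
    · exact absurd (hi'.symm.trans hi) h01
    · rw [hb, hc]

theorem T_left {V D : Type} {G : SimpleGraph V} {k : ℕ} {R : Rel G (Fin (k + 2) ⊕ D)}
    {A B : {φ // R.Col φ}} {γ : Fin (k + 2) → {φ // R.Col φ}}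
    {i : Fin (k + 2)} {v : V} {a b c : Fin (k + 2) ⊕ D} (h1 : T A B γ i v a c)
    (h2 : T A B γ i v b c) : a = b := by
  have h01 : (0 : Fin (k + 2)) ≠ 1 := zero_ne_one
  rcases h1 with ⟨ha, hc⟩ | ⟨-, -, ha, hc⟩ <;> rcases h2 with ⟨hb, hc'⟩ | ⟨-, -, hb, hc'⟩
  · rw [ha, hb]
  · exfalso
    rcases hc' with ⟨hi, hc'⟩ | ⟨hi, hc'⟩ <;> subst hi
    · exact h01 (Sum.inl.inj (hc.symm.trans hc'))
    · exact h01 (Sum.inl.inj (hc'.symm.trans hc))
  · exfalso
    rcases hc with ⟨hi, hc⟩ | ⟨hi, hc⟩ <;> subst hi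
    · exact h01 (Sum.inl.inj (hc'.symm.trans hc))
    · exact h01 (Sum.inl.inj (hc.symm.trans hc'))
  · rw [ha, hb]

/-- the cover of the product without colouring -/
def big {V D : Type} {G : SimpleGraph V} {k t : ℕ} (R : Rel G (Fin (k + 2) ⊕ D)) (N : Rel G D)
    (A B : {φ // R.Col φ}) (hAB : ∀ v, A.1 v ≠ B.1 v) (e : Fin t → Idx k R B) :
    Rel (G □ completeBipartiteGraph (Fin (k + 2)) (Fin t)) (Fin (k + 2) ⊕ D) where
  M x y a b := match x.2, y.2 with
    | .inl i, .inl i' => i = i' ∧ R.M x.1 y.1 a b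
    | .inr j, .inr j' => j = j' ∧ ∃ a' b', a = Sum.inr a' ∧ b = Sum.inr b' ∧ N.M x.1 y.1 a' b'
    | .inl i, .inr j => x.1 = y.1 ∧ T A B (e j).1 i x.1 a b
    | .inr j, .inl i => x.1 = y.1 ∧ T A B (e j).1 i x.1 b a
  symm := by
    rintro ⟨u, x⟩ ⟨v, y⟩ a b h
    rcases x with i | j <;> rcases y with i' | j' <;> simp only at h ⊢
    · exact ⟨h.1.symm, R.symm _ _ _ _ h.2⟩
    · obtain ⟨rfl, h⟩ := h
      exact ⟨rfl, h⟩
    · obtain ⟨rfl, h⟩ := h
      exact ⟨rfl, h⟩
    · obtain ⟨h1, a', b', h2, h3, h4⟩ := h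
      exact ⟨h1.symm, b', a', h3, h2, N.symm _ _ _ _ h4⟩
  inj := by
    rintro ⟨u, x⟩ ⟨v, y⟩ a b c hadj h1 h2
    rw [boxProd_adj] at hadj
    rcases x with i | j <;> rcases y with i' | j' <;> simp only at h1 h2 hadj
    · rcases hadj with ⟨huv, -⟩ | ⟨hK, -⟩
      · exact R.inj _ _ _ _ _ huv h1.2 h2.2
      · simp at hK
    · exact T_right hAB h1.2 h2.2
    · exact T_left h1.2 h2.2
    · rcases hadj with ⟨huv, -⟩ | ⟨hK, -⟩
      · obtain ⟨-, a', b', ha, hb, hN⟩ := h1
        obtain ⟨-, a'', c', ha', hc, hN'⟩ := h2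
        subst ha hb hc
        have := Sum.inr.inj ha'
        subst this
        rw [N.inj _ _ _ _ _ huv hN hN']
      · simp at hK

theorem big_not_col {V D : Type} [Nonempty V] {G : SimpleGraph V} {k t : ℕ}
    (R : Rel G (Fin (k + 2) ⊕ D)) (N : Rel G D) (hN : ∀ ψ, ¬ N.Col ψ)
    (A B : {φ // R.Col φ}) (hAB : ∀ v, A.1 v ≠ B.1 v) (e : Fin t → Idx k R B)
    (he : Function.Surjective e) (Φ : V × (Fin (k + 2) ⊕ Fin t) → Fin (k + 2) ⊕ D) :
    ¬ (big R N A B hAB e).Col Φ := by
  classical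
  intro hΦ
  have h01 : (0 : Fin (k + 2)) ≠ 1 := zero_ne_one
  have hγ : ∀ i : Fin (k + 2), R.Col (fun v => Φ (v, Sum.inl i)) := by
    intro i u v huv hM
    exact hΦ (u, Sum.inl i) (v, Sum.inl i) (by rw [boxProd_adj]; exact Or.inl ⟨huv, rfl⟩)
      ⟨rfl, hM⟩
  let γ : Fin (k + 2) → {φ // R.Col φ} := fun i => ⟨_, hγ i⟩
  -- it is enough to find a right copy all of whose colours `inl i` are excluded
  have key : ∀ j : Fin t, ¬ ∀ v i, ∃ i', T A B (e j).1 i' v ((γ i').1 v) (Sum.inl i) := by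
    intro j hj
    have h1 : ∀ v i, Φ (v, Sum.inr j) ≠ Sum.inl i := by
      intro v i hc
      obtain ⟨i', hi'⟩ := hj v i
      refine hΦ (v, Sum.inl i') (v, Sum.inr j) ?_ ⟨rfl, ?_⟩
      · rw [boxProd_adj]
        exact Or.inr ⟨by simp, rfl⟩
      · rw [hc]
        exact hi'
    have h2 : ∀ v, ∃ d, Φ (v, Sum.inr j) = Sum.inr d := by
      intro v
      rcases hv : Φ (v, Sum.inr j) with i | d
      · exact absurd hv (h1 v i)
      · exact ⟨d, rfl⟩
    choose ψ hψ using h2
    refine hN ψ (fun u v huv hM => ?_)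
    refine hΦ (u, Sum.inr j) (v, Sum.inr j) ?_ ⟨rfl, ψ u, ψ v, hψ u, hψ v, hM⟩
    rw [boxProd_adj]
    exact Or.inl ⟨huv, rfl⟩
  by_cases hB : γ 0 = B ∧ γ 1 = B
  · let γ' : Fin (k + 2) → {φ // R.Col φ} := fun i => if i = 0 ∨ i = 1 then A else γ i
    have h0 : γ' 0 = A := by simp [γ']
    have h1 : γ' 1 = A := by simp [γ']
    have hγ' : ¬ (γ' 0 = B ∧ γ' 1 = B) := by
      rintro ⟨h, -⟩
      rw [h0] at h
      obtain ⟨v⟩ := ‹Nonempty V›
      exact hAB v (by rw [h])
    obtain ⟨j, hj⟩ := he ⟨γ', hγ'⟩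
    refine key j (fun v i => ?_)
    rw [hj]
    by_cases hi0 : i = 0
    · subst hi0
      exact ⟨1, Or.inr ⟨h0, h1, by rw [hB.2], Or.inr ⟨rfl, rfl⟩⟩⟩
    by_cases hi1 : i = 1
    · subst hi1
      exact ⟨0, Or.inr ⟨h0, h1, by rw [hB.1], Or.inl ⟨rfl, rfl⟩⟩⟩
    · refine ⟨i, Or.inl ⟨?_, rfl⟩⟩
      simp [γ', hi0, hi1]
  · obtain ⟨j, hj⟩ := he ⟨γ, hB⟩
    refine key j (fun v i => ?_)
    rw [hj]
    exact ⟨i, Or.inl ⟨rfl, rfl⟩⟩

theorem card_Idx {α : Type} [Finite α] (k : ℕ) (B : α) :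
    Nat.card {γ : Fin (k + 2) → α // ¬ (γ 0 = B ∧ γ 1 = B)} + Nat.card α ^ k =
      Nat.card α ^ (k + 2) := by
  classical
  cases nonempty_fintype α
  have h1 : Nat.card {γ : Fin (k + 2) → α // γ 0 = B ∧ γ 1 = B} = Nat.card α ^ k := by
    have e : {γ : Fin (k + 2) → α // γ 0 = B ∧ γ 1 = B} ≃ (Fin k → α) :=
      { toFun := fun γ i => γ.1 i.succ.succ
        invFun := fun g => ⟨Fin.cons B (Fin.cons B g), by simp, by
          rw [show (1 : Fin (k + 2)) = Fin.succ 0 from rfl, Fin.cons_succ, Fin.cons_zero]⟩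
        left_inv := by
          rintro ⟨γ, h0, h1⟩
          apply Subtype.ext
          funext i
          refine Fin.cases ?_ (fun i => ?_) i
          · simp [h0]
          · refine Fin.cases ?_ (fun i => ?_) i
            · simp only [Fin.cons_succ, Fin.cons_zero]
              exact h1.symm
            · simp
        right_inv := by
          intro g
          funext i
          simp }
    rw [Nat.card_congr e, Nat.card_fun]
    simp
  have h2 : Nat.card (Fin (k + 2) → α) = Nat.card α ^ (k + 2) := by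
    rw [Nat.card_fun]
    simp
  rw [← h1, ← h2]
  rw [add_comm, ← Nat.card_sum]
  exact Nat.card_congr (Equiv.sumCompl (fun γ : Fin (k + 2) → α => γ 0 = B ∧ γ 1 = B))

/-- **Theorem.** For every nonempty graph `G` and every `k ≥ 2`, with
`P = P_DP(G, χ_DP(G) + k - 1)`: `f(G, k) ≤ P ^ k - P ^ (k - 2) < P ^ k`. -/
theorem result : ∀ (V : Type) [Fintype V] [Nonempty V] (G : SimpleGraph V) (k : ℕ), 2 ≤ k →
    fDP G k + PDP G (chiDP G + k - 1) ^ (k - 2) ≤ PDP G (chiDP G + k - 1) ^ k ∧
      fDP G k < PDP G (chiDP G + k - 1) ^ k := by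
  classical
  intro V _ _ G k' hk'
  obtain ⟨k, rfl⟩ : ∃ k, k' = k + 2 := ⟨k' - 2, by omega⟩
  obtain ⟨d, hd⟩ : ∃ d, chiDP G = d + 1 := ⟨chiDP G - 1, by have := chiDP_pos G; omega⟩
  have hm : chiDP G + (k + 2) - 1 = (k + 2) + d := by omega
  rw [hm, Nat.add_sub_cancel]
  obtain ⟨R₀, hR₀⟩ := exists_PDP G ((k + 2) + d)
  let e₀ : Fin (k + 2) ⊕ Fin d ≃ Fin ((k + 2) + d) := finSumFinEquiv
  let R : Rel G (Fin (k + 2) ⊕ Fin d) := R₀.map (fun _ => e₀.toEmbedding)
  have hR : Nat.card {φ // R.Col φ} = PDP G ((k + 2) + d) := by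
    rw [← hR₀]
    refine Nat.card_congr ?_
    exact
      { toFun := fun φ => ⟨fun v => e₀ (φ.1 v), fun u v huv => φ.2 u v huv⟩
        invFun := fun φ => ⟨fun v => e₀.symm (φ.1 v), by
          intro u v huv hM
          refine φ.2 u v huv ?_
          have : R₀.M u v (e₀ (e₀.symm (φ.1 u))) (e₀ (e₀.symm (φ.1 v))) := hM
          simpa using this⟩
        left_inv := fun φ => Subtype.ext (funext fun v => by simp)
        right_inv := fun φ => Subtype.ext (funext fun v => by simp) }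
  obtain ⟨N, hN⟩ : ∃ N : Rel G (Fin d), ∀ ψ, ¬ N.Col ψ := by
    have := not_good G (m := d) (by omega)
    unfold Good at this
    push Not at this
    exact this
  have hG := good_chiDP G
  obtain ⟨A, hA⟩ := hG.exists_col (by simp; omega) R
  obtain ⟨B, hB, hAB⟩ := hG.exists_sub R (fun v => univ.erase (A v)) (fun v => by
    rw [card_erase_of_mem (mem_univ _), card_univ]
    simp
    omega)
  have hAB' : ∀ v, A v ≠ B v := fun v h => (mem_erase.1 (hAB v)).1 h.symm
  let A' : {φ // R.Col φ} := ⟨A, hA⟩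
  let B' : {φ // R.Col φ} := ⟨B, hB⟩
  have hPpos : 0 < PDP G ((k + 2) + d) := by
    rw [← hR]
    exact Nat.card_pos_iff.2 ⟨⟨A'⟩, inferInstance⟩
  have hcard := card_Idx k B'
  rw [hR] at hcard
  obtain ⟨t, ht⟩ : ∃ t, t = Nat.card (Idx k R B') := ⟨_, rfl⟩
  have e : Fin t ≃ Idx k R B' := (Finite.equivFinOfCardEq ht.symm).symm
  have hnot : ¬ Good (G □ completeBipartiteGraph (Fin (k + 2)) (Fin t)) ((k + 2) + d) := by
    intro h
    obtain ⟨Φ, hΦ⟩ := h.exists_col (by simp) (big R N A' B' hAB' e)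
    exact big_not_col R N hN A' B' hAB' e e.surjective Φ hΦ
  have hchi : chiDP (G □ completeBipartiteGraph (Fin (k + 2)) (Fin t)) = chiDP G + (k + 2) := by
    apply chiDP_eq_of
    · exact good_prod G (k + 2) t
    · intro n hn hgood
      have : n = (k + 2) + d := by omega
      exact hnot (this ▸ hgood)
  have hf : fDP G (k + 2) ≤ t := Nat.sInf_le hchi
  have h1 : t + PDP G ((k + 2) + d) ^ k = PDP G ((k + 2) + d) ^ (k + 2) := by
    rw [ht]
    exact hcard
  have h2 : 0 < PDP G ((k + 2) + d) ^ k := Nat.pow_pos hPpos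
  constructor <;> omega

end Pool.Agent.Results.MP_924496_co.NeverSharp
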